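import Pool.Agent.H98.RFT.Basic
import Pool.Agent.H20.RFZ.A3

/-!
# Board `rft_modules`, row AA: scaling up, summary
-/

set_option autoImplicit false

open MeasureTheory ProbabilityTheory Filter Topology
open Pool.Agent.H98.RFC Pool.Agent.H98.RFZ Pool.Agent.H98.RFT

namespace Pool.Agent.H94.RFT

/-- `PA` is nonnegative. -/
theorem PA_nonneg (hq : D_QP) {R : ℕ} {J : Site → ℝ} (hJ : IsCoupling R J) {T ε : ℝ}
    (hT : 0 < T) (W : Finset Site) (A : Set Site → Finset (Site × Site) → Prop) :
    0 ≤ PA R J T ε W A :=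
  integral_nonneg fun η => ((hq R J hJ (fun x => ε * η x) T hT W).1 A).1

/-- The integrand of `PA` is integrable. -/
theorem PA_integrable (hq : D_QP) (hc : D_CNT) {R : ℕ} {J : Site → ℝ} (hJ : IsCoupling R J)
    {T : ℝ} (ε : ℝ) (hT : 0 < T) (W : Finset Site)
    (A : Set Site → Finset (Site × Site) → Prop) :
    Integrable (fun η : Site → ℝ => QP R J (fun x => ε * η x) T W A) gam := by
  have hp : IsProbabilityMeasure gam := by unfold gam; infer_instance
  have hcont : Continuous (fun η : Site → ℝ => QP R J (fun x => ε * η x) T W A) := by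
    have h1 := (hc R J T hT W).2.1 A
    have h2 : Continuous (fun η : Site → ℝ => (fun x => ε * η x : Site → ℝ)) :=
      continuous_pi fun x => continuous_const.mul (continuous_apply x)
    exact h1.comp h2
  refine Integrable.of_bound hcont.measurable.aestronglyMeasurable 1 ?_
  refine Filter.Eventually.of_forall fun η => ?_
  have h3 := (hq R J hJ (fun x => ε * η x) T hT W).1 A
  rw [Real.norm_eq_abs, abs_of_nonneg h3.1]
  exact h3.2.1

/-- `PA` is monotone. -/
theorem PA_mono (hq : D_QP) (hc : D_CNT) {R : ℕ} {J : Site → ℝ} (hJ : IsCoupling R J)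
    {T : ℝ} (ε : ℝ) (hT : 0 < T) (W : Finset Site)
    {A B : Set Site → Finset (Site × Site) → Prop} (h : ∀ D ω, A D ω → B D ω) :
    PA R J T ε W A ≤ PA R J T ε W B := by
  refine integral_mono (PA_integrable hq hc hJ ε hT W A) (PA_integrable hq hc hJ ε hT W B) ?_
  intro η
  exact (hq R J hJ (fun x => ε * η x) T hT W).2.1 A B (fun D ω _ _ _ => h D ω)

/-- Row AA. -/
theorem pf_AA (hc : D_CNT) (h2 : T_A2) : T_A := by
  have hq : D_QP := pf_QPR
  have h3 : B_A3 := Pool.Agent.H20.RFZ.pf_A3
  intro R J hJ T ε hT N α β θ hα hαβ hN hθ hθ1 v hv hp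
  have hρ : 1 ≤ β / α := by rwa [one_le_div hα]
  have hN0 : ∀ x, 0 ≤ N x := fun x =>
    le_trans (mul_nonneg hα.le (Real.sqrt_nonneg _)) (hN.2.2 x).1
  refine h3 (β / α) θ hρ hθ hθ1
    (fun c v => pBT R J T ε (fun x => c * N x) v) (20 * R + 20) (by omega)
    (fun c v => PA_nonneg hq hJ hT _ _) ?_ ?_ v hv ?_
  · intro c c' v hc0 hcc'
    refine PA_mono hq hc hJ ε hT _ ?_
    rintro D ω ⟨k, x, h1, h4, h5, h6, h7⟩
    refine ⟨k, x, h1, h4, h5, h6, lt_of_lt_of_le h7 ?_⟩
    exact mul_le_mul_of_nonneg_right hcc' (hN0 _)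
  · intro c c' v w hv hw hc hc' hle
    have hNc : IsN (fun x => c * N x) (c * α) (c * β) := by
      refine ⟨fun x y => ?_, fun x => ?_, fun x => ⟨?_, ?_⟩⟩
      · have := mul_le_mul_of_nonneg_left (hN.1 x y) hc.le
        change c * N (x + y) ≤ c * N x + c * N y
        linarith
      · change c * N (-x) = c * N x
        rw [hN.2.1]
      · change c * α * nrm x ≤ c * N x
        rw [mul_assoc]
        exact mul_le_mul_of_nonneg_left (hN.2.2 x).1 hc.le
      · change c * N x ≤ c * β * nrm x
        rw [mul_assoc]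
        exact mul_le_mul_of_nonneg_left (hN.2.2 x).2 hc.le
    have hr : c * β / (c * α) = β / α := mul_div_mul_left β α hc.ne'
    have h4 := h2 R J hJ T ε hT (fun x => c * N x) (c * α) (c * β) (c' / c) (mul_pos hc hα)
      (mul_le_mul_of_nonneg_left hαβ hc.le) hNc v w hv hw (div_nonneg hc' hc.le) (by
        rw [hr, div_le_iff₀ hc]
        linarith)
    have h5 : (fun x => c' / c * (c * N x)) = fun x => c' * N x := by
      funext x
      field_simp
    rw [h5] at h4
    exact h4
  · have h4 : (fun x => (1 : ℝ) * N x) = N := by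
      funext x
      rw [one_mul]
    change pBT R J T ε (fun x => (1 : ℝ) * N x) v ≤ _
    rw [h4]
    exact hp

end Pool.Agent.H94.RFT
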