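import Pool.Agent.H98.RFT.Basic

/-!
# Board `rft_modules`, row TEN: properties of the tension
-/

set_option autoImplicit false

open MeasureTheory ProbabilityTheory Filter Topology
open Pool.Agent.H98.RFC Pool.Agent.H98.RFZ Pool.Agent.H98.RFT

namespace Pool.Agent.H94.RFT

/-- Without open edges `V` is not joined to the outside. -/
theorem not_Cn_empty {V Λ : Finset Site} (hV : V ⊆ Λ) (D : Set Site) : ¬ Cn V Λ D ∅ := by
  rintro ⟨k, x, ⟨_, h2⟩, h3, h4⟩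
  rcases Nat.eq_zero_or_pos k with hk | hk
  · subst hk
    exact h4 (hV h3)
  · have h5 := h2 0 hk
    rcases h5 with h5 | h5 <;> simp at h5

/-- The probability that there is no connection is positive. -/
theorem QP_not_Cn_pos {R : ℕ} {J : Site → ℝ} (hJ : IsCoupling R J) (h : Site → ℝ) {T : ℝ}
    (hT : 0 < T) {V Λ : Finset Site} (hV : V ⊆ Λ) :
    0 < QP R J h T (Λ \ V) (fun D ω => ¬ Cn V Λ D ω) := by
  have hZ := Zf_mul_pos R J h T (Λ \ V) (↑(Λ \ V))ᶜ ∅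
  unfold QP Qd Qe Qg
  refine div_pos ?_ hZ
  have hnn : ∀ S S' : Finset Site, ∀ ω : Finset (Site × Site),
      0 ≤ wt R J h T (Λ \ V) (↑(Λ \ V))ᶜ S * wt R J h T (Λ \ V) ∅ S' *
        bw (prs R (Λ \ V)) (qe J T) ω * ind (¬ Cn V Λ (Dq (Λ \ V) S S') ω) := by
    intro S S' ω
    exact mul_nonneg (mul_nonneg (mul_nonneg (Pool.Agent.H19.RFC.wt_pos _ _ _ _ _ _ _).le
      (Pool.Agent.H19.RFC.wt_pos _ _ _ _ _ _ _).le) (bw_prs_nonneg hJ hT _ _)) (ind_nonneg _)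
  have h0 : 0 < wt R J h T (Λ \ V) (↑(Λ \ V))ᶜ ∅ * wt R J h T (Λ \ V) ∅ ∅ *
      bw (prs R (Λ \ V)) (qe J T) ∅ * ind (¬ Cn V Λ (Dq (Λ \ V) ∅ ∅) ∅) := by
    rw [ind_pos (not_Cn_empty hV _), mul_one]
    refine mul_pos (mul_pos (Pool.Agent.H19.RFC.wt_pos _ _ _ _ _ _ _)
      (Pool.Agent.H19.RFC.wt_pos _ _ _ _ _ _ _)) ?_
    unfold bw
    rw [Finset.prod_empty, one_mul]
    exact Finset.prod_pos fun e _ => Real.exp_pos _
  refine lt_of_lt_of_le h0 ?_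
  refine le_trans ?_ (Finset.single_le_sum (f := fun S => ∑ S' ∈ (Λ \ V).powerset,
    ∑ ω ∈ (prs R (Λ \ V)).powerset, wt R J h T (Λ \ V) (↑(Λ \ V))ᶜ S *
      wt R J h T (Λ \ V) ∅ S' * bw (prs R (Λ \ V)) (qe J T) ω *
      ind (¬ Cn V Λ (Dq (Λ \ V) S S') ω))
    (fun S _ => Finset.sum_nonneg fun S' _ => Finset.sum_nonneg fun ω _ => hnn S S' ω)
    (Finset.empty_mem_powerset _))
  refine le_trans ?_ (Finset.single_le_sum (f := fun S' =>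
    ∑ ω ∈ (prs R (Λ \ V)).powerset, wt R J h T (Λ \ V) (↑(Λ \ V))ᶜ ∅ *
      wt R J h T (Λ \ V) ∅ S' * bw (prs R (Λ \ V)) (qe J T) ω *
      ind (¬ Cn V Λ (Dq (Λ \ V) ∅ S') ω))
    (fun S' _ => Finset.sum_nonneg fun ω _ => hnn ∅ S' ω)
    (Finset.empty_mem_powerset _))
  exact Finset.single_le_sum (f := fun ω => wt R J h T (Λ \ V) (↑(Λ \ V))ᶜ ∅ *
      wt R J h T (Λ \ V) ∅ ∅ * bw (prs R (Λ \ V)) (qe J T) ω *
      ind (¬ Cn V Λ (Dq (Λ \ V) ∅ ∅) ω))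
    (fun ω _ => hnn ∅ ∅ ω) (Finset.empty_mem_powerset _)

/-- Row TEN. -/
theorem pf_TEN (hc : D_CNT) (hl : D_LOQ) : D_TEN := by
  intro R J hJ T hT V Λ hV
  refine ⟨fun h => QP_not_Cn_pos hJ h hT hV, fun h => ?_, fun h h' hh => ?_, ?_⟩
  · have h1 := QP_not_Cn_pos hJ h hT hV
    have h2 := QP_le_one hJ h hT (Λ \ V) (fun D ω => ¬ Cn V Λ D ω)
    have h3 := Real.log_nonpos h1.le h2
    unfold tenT
    have h4 := mul_nonneg hT.le (neg_nonneg.2 h3)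
    linarith
  · unfold tenT
    rw [(hl R J h h' T (Λ \ V) hh).2.1]
  · have h1 := ((hc R J T hT (Λ \ V)).2.1 (fun D ω => ¬ Cn V Λ D ω)).measurable
    unfold tenT
    exact ((Real.measurable_log.comp h1).const_mul T).neg

end Pool.Agent.H94.RFT
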